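import Pool.Agent.Q173.SEC.Core

/-!
# The section conjecture up to an error which is small with respect to the genus

A section is exotic if it is not given by a rational point. One exotic section gives, on finite etale
coverings of large degree over finite extensions of the field, at least as many exotic sections up to
conjugation as the ratio of the Euler characteristics. So the conjecture holds for all curves as
soon as the number of exotic sections is `o(g)`.
-/

set_option autoImplicit false

open Pool.Agent.Q173.SEC

namespace Pool.Agent.Results.MP_e66f84_ag.FewExoticSections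

universe u

theorem result {K : Curve.{u} → Prop} (hK : IsHyperbolicClass K) :
    (∀ C, K C → (∃ σ : Sec C, ¬ FromPoint C σ) → ∀ n : ℕ,
      ∃ H : Subgroup C.P, IsOpen (H : Set C.P) ∧ n ≤ H.relIndex C.geom ∧
        Exotic (cover C H) (H.relIndex C.geom)) ∧
    ((∀ C, K C → ∀ σ : Sec C, FromPoint C σ) ↔
      ∀ ε : ℝ, 0 < ε → ∃ B : ℕ, ∀ C, K C → B ≤ C.chi →
        ∀ n, Exotic C n → (n : ℝ) ≤ ε * C.chi) :=
  ⟨fun _ hC ⟨σ, hσ⟩ n => amplify hK hC σ hσ n, main hK⟩

end Pool.Agent.Results.MP_e66f84_ag.FewExoticSections
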