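import Pool.Agent.W623.SecF.Fg
import Pool.Agent.W623.SecF.FV
import Pool.Agent.Q52.SecV.Kpi

/-!
# Families of curves without sections over all rational base changes of small degree

Let `K` be a field finitely generated over `ℚ`, `f ∈ K[x]` a separable polynomial of even degree
`≥ 4` and `a(t) = p(t)/q(t) ∈ K(t)` a rational function with zeros or poles of odd order at four
different points `c_0, …, c_3 ∈ K`.  Consider the family of curves

  `C : a(t) yⁿ = f(x)`,  `n` even,

over the `t`-line.  Let `D` be a number such that all irreducible factors of `f` over `K` have degree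
greater than `D`.  We prove: for every nonconstant rational function `g = P/Q ∈ K(s)` of degree
`≤ D`, that is, for all maps `g : ℙ¹ → ℙ¹` of degree `≤ D`, the curve `a(g(s)) yⁿ = f(x)` over
`K(s)`, the base change of the family along `g`, has no point over `K(s)` and its fundamental group has
no section, also birationally.  So all these curves and all curves over `K(s)` that dominate one of
them satisfy the section conjecture, for all base changes `g` of degree `≤ D` at once.

For example, if `f` is irreducible of degree `N` over `K`, then `D` can be any number less than `N`.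
As `K` can be replaced by `K(s_2, …, s_m)`, the theorem also applies to rational maps
`ℙᵐ → ℙ¹`.  By a change of the coordinate `t` one of the four points can be the point at infinity.
If all zeros and poles of odd order of `a` are rational points, then their number is even, and for
two points the theorem is not true, for instance for `a = t`, `g = s²` and `n = 2`, if `f` is monic.

The fundamental group is described through valuations.  Let `U` be a smooth geometrically connected
curve over `k` with function field `F`, let `Ω` be an algebraic closure of `F`, and let `F_U` be the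
maximal extension of `F` inside `Ω` which is unramified over the closed points of `U`, that is, over
their local rings, which are valuation rings of `F`.  Then `π₁(U) = Gal(F_U/F)`, and the map
`π₁(U) → G_k` is the restriction of automorphisms to the algebraic closure of `k` in `Ω`.  For
`U = ∅` one gets `F_U = Ω` and the sections of `Gal(Ω/F) → G_k`.

Proof.  If for all `i` the polynomial `P - c_i Q` were divisible by every irreducible polynomial with
even multiplicity, it would be a constant times a square, and four different members of the pencil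
spanned by `P` and `Q` would be squares over an algebraic closure of `K`.  By Fermat's method of
descent `P` and `Q` would be constant.  So there are an `i` and an irreducible polynomial `π` that
divides `P - c_i Q` with odd multiplicity.  At the corresponding place of `K(s)` the function `a(g(s))`
has odd valuation, and the residue field is an extension of `K` of degree at most `D`, which
contains no root of `f`.  Now the theorem of `MP_8312c9_nt.RamifiedTwists` of the starting files
about discrete valuation rings with finitely generated residue field applies.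
-/

open Polynomial

namespace Pool.Agent.Results.MP_e66f84_ag.RationalBaseChange

universe u v w

section definitions

variable (k : Type u) (F : Type v) (Ω : Type w) [Field k] [Field F] [Field Ω] [Algebra k F]
  [Algebra F Ω] [Algebra k Ω]

/-- The inertia group of the valuation ring `W` of `Ω`, as a subgroup of `Gal(Ω/F)`: the
automorphisms of `Ω` over `F` that map `W` onto itself and act as the identity on its residue
field. -/
noncomputable def inertia (W : ValuationSubring Ω) : Subgroup (Ω ≃ₐ[F] Ω) :=
  (W.inertiaSubgroup F).map (W.decompositionSubgroup F).subtype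

/-- `F_U`, for a set `U` of valuation rings of `F`: the elements of `Ω` fixed by the inertia groups
of all valuation rings `W` of `Ω` with `W ∩ F ∈ U`.  If `Ω` is an algebraic closure of a field `F`
of characteristic zero, this is the maximal extension of `F` in `Ω` unramified over `U`. -/
noncomputable def unramified (U : Set (ValuationSubring F)) : IntermediateField F Ω :=
  ⨅ W : {W : ValuationSubring Ω // W.comap (algebraMap F Ω) ∈ U},
    IntermediateField.fixedField (inertia F Ω W.1)

/-- The map `τ : M → M` acts as `σ : K → K` on the elements that the fields `K` and `M` have in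
common when they are regarded as subfields of `Ω` through `i` and `j`. -/
def ActsAs {K M Ω : Type*} [Field K] [Field M] [Field Ω] (i : K →+* Ω) (j : M →+* Ω) (σ : K → K)
    (τ : M → M) : Prop :=
  ∀ c z, j z = i c → j (τ z) = i (σ c)

/-- Let `k ⊆ K ⊆ Ω` and `F ⊆ M ⊆ Ω` be fields.  A splitting of `Gal(M/F) → Gal(K/k)`: a continuous
homomorphism `s` from `Gal(K/k)` to `Gal(M/F)` such that `s(σ)` acts as `σ` on the elements of
`K ∩ M`. -/
structure Splitting (K M : Type*) [Field K] [Field M] [Algebra k K] [Algebra F M] [Algebra K Ω]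
    [Algebra M Ω] where
  /-- the homomorphism `Gal(K/k) → Gal(M/F)` -/
  toHom : (K ≃ₐ[k] K) →* (M ≃ₐ[F] M)
  cont : Continuous toHom
  compat : ∀ σ : K ≃ₐ[k] K, ActsAs (algebraMap K Ω) (algebraMap M Ω) σ (toHom σ)

/-- The sections of `π₁(U) = Gal(F_U/F) → G_k`: the continuous homomorphisms `s` from
`G_k = Gal(k̄/k)` to `Gal(F_U/F)`, where `k̄` is the algebraic closure of `k` in `Ω`, such that
`s(σ)` acts as `σ` on the elements of `k̄`. -/
def GaloisSection (U : Set (ValuationSubring F)) : Type w :=
  Splitting k F Ω (algebraicClosure k Ω) (unramified F Ω U)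

end definitions

/-- The smooth projective curve `a yⁿ = f(x)`, where `n` divides the degree of `f`, has no point
over `k`: neither in the affine part nor at infinity. -/
def NoPoint {k : Type u} [Field k] (n : ℕ) (a : k) (f : k[X]) : Prop :=
  (¬ ∃ x y : k, a * y ^ n = f.eval x) ∧ ¬ ∃ r : k, a * r ^ n = f.leadingCoeff

/-- Let `F` be any field over `k` that contains a point `(x, y)` of the curve `a yⁿ = f(x)`, for
instance the function field of the curve, and let `Ω` be an algebraic closure of `F`.  Then for
every set `U` of valuation rings of `F` over `k` there is no section of `π₁(U) → G_k`.  If `F` is the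
function field of the curve, such `U` are given by the smooth projective curve and by all its open
subcurves. -/
def NoSection {k : Type u} [Field k] (n : ℕ) (a : k) (f : k[X]) : Prop :=
  ∀ (F : Type v) (Ω : Type w) [Field F] [Field Ω] [Algebra k F] [Algebra F Ω] [Algebra k Ω]
    [IsScalarTower k F Ω] [IsAlgClosure F Ω] (x y : F) (U : Set (ValuationSubring F)),
    algebraMap k F a * y ^ n = aeval x f → (∀ O ∈ U, ∀ c : k, algebraMap k F c ∈ O) →
      IsEmpty (GaloisSection k F Ω U)

/-- The field `κ` is finitely generated (over its prime field). -/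
def FGField (κ : Type) [Field κ] : Prop := ∃ s : Finset κ, Subfield.closure (s : Set κ) = ⊤

lemma exists_val {κ : Type} [Field κ] (h : Pool.Agent.W623.SecF.FV κ) :
    ∀ S : Finset κ, ∃ O : ValuationSubring κ, Finite (IsLocalRing.ResidueField O) ∧
      (2 : κ)⁻¹ ∈ O ∧ ∀ s ∈ S, s ∈ O := by
  classical
  intro S
  obtain ⟨O, hO, h1⟩ := h (insert (2 : κ)⁻¹ S)
  exact ⟨O, hO, h1 _ (Finset.mem_insert_self _ _), fun s hs => h1 s (Finset.mem_insert_of_mem hs)⟩

/-- Let `K` be a finitely generated field of characteristic zero and `D ≥ 0`.  Let `f ∈ K[x]` be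
separable of even degree `≥ 4` such that all its irreducible factors have degree greater than `D`,
and let `a = p/q ∈ K(t)` have odd order at four different points `c i ∈ K`.  Let `L = K(s)` with
`s` transcendental over `K`, and let `g = P(s)/Q(s)` be nonconstant of degree `≤ D`, where `P` and
`Q` are coprime.  Then for even `n ≥ 2` the curve `a(g) yⁿ = f(x)` has no point over `L` and no
section over `L`, also birationally. -/
theorem result (K : Type) [Field K] [CharZero K] (hK : FGField K) (D : ℕ) (f : K[X])
    (hs : f.Separable) (hev : Even f.natDegree) (h4 : 4 ≤ f.natDegree)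
    (hD : ∀ h : K[X], Irreducible h → h ∣ f → D < h.natDegree)
    (p q : K[X]) (hp : p ≠ 0) (hq : q ≠ 0) (c : Fin 4 → K) (hc : Function.Injective c)
    (hodd : ∀ i, Odd (p.rootMultiplicity (c i) + q.rootMultiplicity (c i)))
    (L : Type) [Field L] [Algebra K L] (s : L) (hst : Transcendental K s)
    (htop : IntermediateField.adjoin K {s} = (⊤ : IntermediateField K L))
    (P Q : K[X]) (hPQ : IsCoprime P Q) (hdeg : max P.natDegree Q.natDegree ≤ D)
    (hpos : 0 < max P.natDegree Q.natDegree) (n : ℕ) (hn : 0 < n) (hne : Even n) :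
    NoPoint n (aeval (aeval s P / aeval s Q) p / aeval (aeval s P / aeval s Q) q)
        (f.map (algebraMap K L)) ∧
      NoSection.{0, v, w} n (aeval (aeval s P / aeval s Q) p / aeval (aeval s P / aeval s Q) q)
        (f.map (algebraMap K L)) := by
  obtain ⟨l, rfl⟩ := hne
  have hczL : CharZero L := charZero_of_injective_algebraMap (algebraMap K L).injective
  obtain ⟨i0, π0, R', e, hπ0, hR', hnd, he⟩ :=
    Pool.Agent.Q52.SecV.exists_odd_factor P Q hPQ hpos c hc
  obtain ⟨B, hB, i, ρ, hρ, hi, hρi, hui, hπ⟩ :=
    Pool.Agent.Q52.SecV.place_irr s hst htop π0 hπ0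
  have hfact : Fact (Irreducible π0) := ⟨hπ0⟩
  set π := i π0 with hπdef
  -- the residue field
  have hfd : FiniteDimensional K (AdjoinRoot π0) := (AdjoinRoot.powerBasis hπ0.ne_zero).finite
  have hrank : Module.finrank K (AdjoinRoot π0) = π0.natDegree := by
    rw [(AdjoinRoot.powerBasis hπ0.ne_zero).finrank, AdjoinRoot.powerBasis_dim]
  have hFV : Pool.Agent.W623.SecF.FV (AdjoinRoot π0) := by
    obtain ⟨s, hs⟩ := hK
    exact (Pool.Agent.W623.SecF.FV.of_fg s hs).alg
  have hval := exists_val hFV
  have h2' : (2 : AdjoinRoot π0) ≠ 0 := by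
    have : CharZero (AdjoinRoot π0) :=
      charZero_of_injective_algebraMap (algebraMap K (AdjoinRoot π0)).injective
    exact two_ne_zero
  -- the degree of `π0`
  have hne0 : P - C (c i0) * Q ≠ 0 := by
    intro h
    rw [h] at hR'
    rcases mul_eq_zero.1 hR'.symm with h1 | h1
    · exact hπ0.ne_zero (pow_eq_zero_iff he.pos.ne' |>.1 h1)
    · exact hnd (h1 ▸ dvd_zero _)
  have hdvd : π0 ∣ P - C (c i0) * Q := by
    rw [hR']
    exact (dvd_pow_self _ he.pos.ne').mul_right _
  have hπD : π0.natDegree ≤ D := by
    refine (natDegree_le_of_dvd hdvd hne0).trans ?_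
    refine (natDegree_sub_le _ _).trans ?_
    refine le_trans (max_le (le_max_left _ _) ?_) hdeg
    exact (natDegree_C_mul_le _ _).trans (le_max_right _ _)
  have hQ : ¬ π0 ∣ Q := by
    intro h
    have h1 : π0 ∣ P := by
      have h2 : P = (P - C (c i0) * Q) + C (c i0) * Q := by ring
      rw [h2]
      exact dvd_add hdvd (h.mul_left _)
    exact hπ0.not_isUnit (hPQ.isUnit_of_dvd' h1 h)
  obtain ⟨Qu, hQu⟩ := hui Q hQ
  obtain ⟨Ru, hRu⟩ := hui R' hnd
  -- the function `g`
  set G : B := i P * ((Qu⁻¹ : Bˣ) : B) with hG
  have hQuL : ((((Qu⁻¹ : Bˣ) : B)) : L) = (aeval s Q)⁻¹ := by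
    have h3 : ((Qu : B) : L) * (((Qu⁻¹ : Bˣ) : B) : L) = 1 := by
      have h4 := Qu.mul_inv
      exact_mod_cast congrArg (fun z : B => (z : L)) h4
    rw [hQu, hi] at h3
    exact eq_inv_of_mul_eq_one_right h3
  have hGL : (G : L) = aeval s P / aeval s Q := by
    change ((i P : B) : L) * (((Qu⁻¹ : Bˣ) : B) : L) = _
    rw [hi, hQuL, div_eq_mul_inv]
  have hGc : G - (i.comp C) (c i0) = ((Ru * Qu⁻¹ : Bˣ) : B) * π ^ e := by
    have h1 : i P = i (C (c i0)) * Qu + π ^ e * Ru := by
      rw [hQu, hRu, hπdef, ← map_pow, ← map_mul, ← map_mul, ← map_add, ← hR']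
      congr 1
      ring
    rw [hG, h1, RingHom.comp_apply, Units.val_mul]
    have h2 : (Qu : B) * ((Qu⁻¹ : Bˣ) : B) = 1 := Qu.mul_inv
    linear_combination (i (C (c i0))) * h2
  have hiC : ∀ r : K, (((i.comp C) r : B) : L) = algebraMap K L r := by
    intro r
    rw [RingHom.comp_apply, hi, aeval_C]
  obtain ⟨vp, hvp⟩ := Pool.Agent.Q52.SecV.val_at B ρ hρ (i.comp C) hiC π G (c i0) _ e he.pos hGc hπ
    p hp
  obtain ⟨vq, hvq⟩ := Pool.Agent.Q52.SecV.val_at B ρ hρ (i.comp C) hiC π G (c i0) _ e he.pos hGc hπ
    q hq
  rw [hGL] at hvp hvq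
  set mp := p.rootMultiplicity (c i0) with hmp
  set mq := q.rootMultiplicity (c i0) with hmq
  have hπL : algebraMap B L π ≠ 0 := by
    rw [Ne, map_eq_zero_iff _ (IsFractionRing.injective B L)]
    exact hπ.ne_zero
  have ha' : aeval (aeval s P / aeval s Q) p / aeval (aeval s P / aeval s Q) q =
      algebraMap B L ((vp * vq⁻¹ : Bˣ) : B) * algebraMap B L π ^ ((e : ℤ) * ((mp : ℤ) - mq)) := by
    have h1 : aeval (aeval s P / aeval s Q) p = algebraMap B L (vp : B) *
        algebraMap B L π ^ (e * mp) := by
      rw [hvp]
      rfl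
    have h2 : aeval (aeval s P / aeval s Q) q = algebraMap B L (vq : B) *
        algebraMap B L π ^ (e * mq) := by
      rw [hvq]
      rfl
    have h3 : algebraMap B L ((vq⁻¹ : Bˣ) : B) = (algebraMap B L (vq : B))⁻¹ := by
      refine eq_inv_of_mul_eq_one_right ?_
      rw [← map_mul, Units.mul_inv, map_one]
    have h4 : algebraMap B L (vq : B) ≠ 0 := (vq.isUnit.map (algebraMap B L)).ne_zero
    rw [h1, h2, Units.val_mul, map_mul, h3, mul_sub, zpow_sub₀ hπL]
    have h5 : algebraMap B L π ^ ((e : ℤ) * (mp : ℤ)) = algebraMap B L π ^ (e * mp) := by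
      exact_mod_cast zpow_natCast (algebraMap B L π) (e * mp)
    have h6 : algebraMap B L π ^ ((e : ℤ) * (mq : ℤ)) = algebraMap B L π ^ (e * mq) := by
      exact_mod_cast zpow_natCast (algebraMap B L π) (e * mq)
    rw [h5, h6]
    field_simp
  have hm' : Odd ((e : ℤ) * ((mp : ℤ) - mq)) := by
    rw [Int.odd_mul]
    refine ⟨by exact_mod_cast he, ?_⟩
    have h1 := hodd i0
    rw [← hmp, ← hmq] at h1
    rcases h1 with ⟨r, hr⟩
    refine ⟨(r : ℤ) - mq, ?_⟩
    have h2 : (mp : ℤ) + mq = 2 * r + 1 := by exact_mod_cast hr
    linarith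
  have ht' : IsUnit (((vp * vq⁻¹ : Bˣ) : B)) := Units.isUnit _
  -- the polynomial
  set g : B[X] := f.map (i.comp C) with hg
  have hf0 : f ≠ 0 := hs.ne_zero
  have hinj : Function.Injective (i.comp C) := (i.comp C).injective
  have hdegg : g.natDegree = f.natDegree := natDegree_map_eq_of_injective hinj f
  have hlcg : IsUnit g.leadingCoeff := by
    rw [hg, leadingCoeff_map_of_injective hinj]
    exact (isUnit_iff_ne_zero.2 (leadingCoeff_ne_zero.2 hf0)).map (i.comp C)
  have hgρ : g.map ρ = f.map (algebraMap K (AdjoinRoot π0)) := by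
    rw [hg, Polynomial.map_map]
    congr 1
    ext r
    exact hρi (C r)
  have hgL : g.map (algebraMap B L) = f.map (algebraMap K L) := by
    rw [hg, Polynomial.map_map]
    congr 1
    ext r
    exact hiC r
  have hsg : (g.map ρ).Separable := by
    rw [hgρ]
    exact hs.map
  have hno : ∀ b : B, g.eval b ∉ IsLocalRing.maximalIdeal B := by
    intro b hb
    have hker : ρ (g.eval b) = 0 := by
      have hmax : (RingHom.ker ρ).IsMaximal := RingHom.ker_isMaximal_of_surjective ρ hρ
      rw [← IsLocalRing.eq_maximalIdeal hmax] at hb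
      exact hb
    have hr : aeval (ρ b) f = 0 := by
      rw [aeval_def, ← eval_map, ← hgρ, eval_map, eval₂_at_apply, hker]
    have hint : IsIntegral K (ρ b) := Algebra.IsIntegral.isIntegral _
    have h3 := hD (minpoly K (ρ b)) (minpoly.irreducible hint) (minpoly.dvd K _ hr)
    have h4 : (minpoly K (ρ b)).natDegree ≤ Module.finrank K (AdjoinRoot π0) :=
      minpoly.natDegree_le _
    rw [hrank] at h4
    omega
  have hlcL : (f.map (algebraMap K L)).leadingCoeff = algebraMap B L g.leadingCoeff := by
    rw [← hgL]
    exact leadingCoeff_map_of_injective (IsFractionRing.injective B L) g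
  refine ⟨⟨?_, ?_⟩, ?_⟩
  · rintro ⟨x, y, hxy⟩
    refine Pool.Agent.W623.SecC.no_affine_point π hπ g hlcg (by rwa [hdegg]) hno _ _ ht' _ hm' ha' x
      (y ^ l) ?_
    rw [hgL, ← hxy, ← pow_mul, mul_two]
  · rintro ⟨r, hr⟩
    refine Pool.Agent.W623.SecC.no_infinite_point π hπ g hlcg _ _ ht' _ hm' ha' (r ^ l) ?_
    rw [← hlcL, ← hr, ← pow_mul, mul_two]
  · intro F Ω _ _ _ _ _ _ _ x y U hxy hU
    have hcl : IsAlgClosed Ω := IsAlgClosure.isAlgClosed F
    have halg : Algebra.IsAlgebraic F Ω := IsAlgClosure.isAlgebraic
    refine ⟨fun s => ?_⟩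
    obtain ⟨b, hb⟩ := Pool.Agent.W623.SecC.fg_root B ρ hρ g hlcg hsg π hπ _ _ ht' _ hm' ha'
      (by rwa [hdegg]) h2' hval (by rwa [hdegg]) U hU ⟨s.toHom, s.cont, s.compat⟩ x (y ^ l)
      (by rw [hgL, ← hxy, ← pow_mul, mul_two])
    exact hno b hb

end Pool.Agent.Results.MP_e66f84_ag.RationalBaseChange
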