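import Mathlib
import Pool.Agent.Q161.SX.All
import Pool.Agent.Q161.SH.SX
import Pool.Agent.Q51.EL.All

/-!
# Sections over finitely generated fields for 100% of the locally soluble twists of a curve

Let `f ∈ ℤ[x]` be irreducible over `ℚ`, of even degree `n ≥ 6`, and let `C_D` be the curve
`D y² = F(x, w)`, `F` the homogenisation of `f`, for squarefree integers `D`.  For all but a proportion
`O((log X)^(-δ))` of the `D`, `|D| ≤ X`, for which `C_D` is everywhere locally soluble, the following
holds for ALL fields `k ⊇ ℚ` for which `G_k → G_ℚ` has a continuous splitting, for instance for the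
function fields `k` of all smooth varieties over `ℚ` with a rational point (so for `ℚ(t_1, .., t_m)`):
the fundamental group over `k` of `C_D`, of its open subcurves over `k`, and of all smooth curves over
`k` that dominate `C_D` (constant or not), has no section.

The fundamental group is described through valuations.  Let `U` be a smooth geometrically connected
curve over `k` with function field `F`, let `Ω` be an algebraic closure of `F`, and let `F_U` be the
maximal extension of `F` inside `Ω` which is unramified over the closed points of `U`, that is, over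
their local rings, which are valuation rings of `F`.  Then `π₁(U) = Gal(F_U/F)`, and the map
`π₁(U) → G_k` is the restriction of automorphisms to the algebraic closure of `k` in `Ω`.

Proof: the composition with the splitting is a section over `ℚ`, for a field `F` that contains a point
of `C_D` but need not be finitely generated over `ℚ`; the theorem of project SX (see
`MP_2f3286_ag.LocallySolubleTwists`) holds for all such fields.
-/

set_option autoImplicit false

open Polynomial

namespace Pool.Agent.Results.MP_e66f84_ag.TwistsOverSplitFields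

universe u v w

/-- The homogenisation `F(x, w) = ∑ a_i x^i w^(n-i)` of `f = ∑ a_i x^i`, `n = deg f`. -/
noncomputable def homogenisation (f : ℤ[X]) {R : Type*} [CommRing R] (x w : R) : R :=
  ∑ i ∈ Finset.range (f.natDegree + 1), (f.coeff i : R) * x ^ i * w ^ (f.natDegree - i)

/-- The curve `C_D : D y² = F(x, w)` has a point over the field `K`. -/
def CurvePoint (f : ℤ[X]) (D : ℤ) (K : Type u) [Field K] : Prop :=
  ∃ x w y : K, (x ≠ 0 ∨ w ≠ 0) ∧ (D : K) * y ^ 2 = homogenisation f x w

/-- `C_D` is everywhere locally soluble: it has points over `ℝ` and over `ℚ_p` for all primes `p`. -/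
def LocallySoluble (f : ℤ[X]) (D : ℤ) : Prop :=
  CurvePoint f D ℝ ∧ ∀ (p : ℕ) [Fact p.Prime], CurvePoint f D ℚ_[p]

section definitions

variable (k : Type u) (F : Type v) (Ω : Type w) [Field k] [Field F] [Field Ω] [Algebra k F]
  [Algebra F Ω] [Algebra k Ω]

/-- The inertia group of the valuation ring `W` of `Ω`, as a subgroup of `Gal(Ω/F)`: the
automorphisms of `Ω` over `F` that map `W` onto itself and act as the identity on its residue
field. -/
noncomputable def inertia (W : ValuationSubring Ω) : Subgroup (Ω ≃ₐ[F] Ω) :=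
  (W.inertiaSubgroup F).map (W.decompositionSubgroup F).subtype

/-- `F_U`, for a set `U` of valuation rings of `F`: the elements of `Ω` fixed by the inertia groups
of all valuation rings `W` of `Ω` with `W ∩ F ∈ U`.  If `Ω` is an algebraic closure of a field `F`
of characteristic zero, this is the maximal extension of `F` in `Ω` unramified over `U`. -/
noncomputable def unramified (U : Set (ValuationSubring F)) : IntermediateField F Ω :=
  ⨅ W : {W : ValuationSubring Ω // W.comap (algebraMap F Ω) ∈ U},
    IntermediateField.fixedField (inertia F Ω W.1)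

/-- The map `τ : M → M` acts as `σ : K → K` on the elements that the fields `K` and `M` have in
common when they are regarded as subfields of `Ω` through `i` and `j`. -/
def ActsAs {K M Ω : Type*} [Field K] [Field M] [Field Ω] (i : K →+* Ω) (j : M →+* Ω) (σ : K → K)
    (τ : M → M) : Prop :=
  ∀ c z, j z = i c → j (τ z) = i (σ c)

/-- Let `k ⊆ K ⊆ Ω` and `F ⊆ M ⊆ Ω` be fields.  A splitting of `Gal(M/F) → Gal(K/k)`: a continuous
homomorphism `s` from `Gal(K/k)` to `Gal(M/F)` such that `s(σ)` acts as `σ` on the elements of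
`K ∩ M`. -/
structure Splitting (K M : Type*) [Field K] [Field M] [Algebra k K] [Algebra F M] [Algebra K Ω]
    [Algebra M Ω] where
  /-- the homomorphism `Gal(K/k) → Gal(M/F)` -/
  toHom : (K ≃ₐ[k] K) →* (M ≃ₐ[F] M)
  cont : Continuous toHom
  compat : ∀ σ : K ≃ₐ[k] K, ActsAs (algebraMap K Ω) (algebraMap M Ω) σ (toHom σ)

/-- The sections of `π₁(U) = Gal(F_U/F) → G_k`: the continuous homomorphisms `s` from
`G_k = Gal(k̄/k)` to `Gal(F_U/F)`, where `k̄` is the algebraic closure of `k` in `Ω`, such that
`s(σ)` acts as `σ` on the elements of `k̄`. -/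
def GaloisSection (U : Set (ValuationSubring F)) : Type w :=
  Splitting k F Ω (algebraicClosure k Ω) (unramified F Ω U)

end definitions

section composition

variable (k₀ k F Ω : Type*) [Field k₀] [Field k] [Field F] [Field Ω] [Algebra k₀ k]
  [Algebra F Ω] [Algebra k Ω] [Algebra k₀ Ω]

/-- Let `k₀ ⊆ k ⊆ Ω` be fields, `Ω` algebraically closed.  The splittings of `G_k → G_{k₀}`: the
continuous homomorphisms `s` from `G_{k₀} = Gal(k̄₀/k₀)` to `G_k = Gal(k̄/k)` such that `s(σ)` acts as
`σ` on the elements of `k̄₀`; here `k̄₀` and `k̄` are the algebraic closures of `k₀` and `k` in `Ω`. -/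
def FieldSplitting : Type _ :=
  Splitting k₀ k Ω (algebraicClosure k₀ Ω) (algebraicClosure k Ω)

variable {k₀ k F Ω}

/-- a section over `k` and a splitting of `G_k → G_{k₀}` give a section over `k₀` -/
lemma compose [IsScalarTower k₀ k Ω] {U : Set (ValuationSubring F)}
    (s : GaloisSection k F Ω U) (t : FieldSplitting k₀ k Ω) :
    Nonempty (Pool.Agent.W620.SC.GSection k₀ F Ω U) := by
  refine ⟨⟨s.toHom.comp t.toHom, s.cont.comp t.cont, fun σ c z h => ?_⟩⟩
  have hc : IsIntegral k (c : Ω) := by
    have h1 : IsIntegral k₀ (c : Ω) := c.2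
    exact h1.tower_top
  have h1 := t.compat σ c ⟨(c : Ω), hc⟩ rfl
  have h2 := s.compat (t.toHom σ) ⟨(c : Ω), hc⟩ z h
  exact h2.trans h1

end composition

/-- the trivial section -/
lemma trivialSection {k : Type v} {Ω : Type w} [Field k] [Field Ω] [Algebra k Ω] [IsAlgClosure k Ω] :
    Nonempty (GaloisSection k k Ω ∅) := by
  have halg : Algebra.IsAlgebraic k Ω := IsAlgClosure.isAlgebraic
  have key : ∀ M : IntermediateField k Ω, M = algebraicClosure k Ω →
      Nonempty (Splitting k k Ω (algebraicClosure k Ω) M) := by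
    rintro _ rfl
    refine ⟨⟨MonoidHom.id _, continuous_id, fun σ c z h => ?_⟩⟩
    have h1 : z = c := Subtype.ext h
    rw [h1]
    rfl
  refine key _ ?_
  rw [(algebraicClosure.eq_top_iff k Ω).2 halg]
  unfold unramified
  have : IsEmpty {W : ValuationSubring Ω // W.comap (algebraMap k Ω) ∈
      (∅ : Set (ValuationSubring k))} := ⟨fun W => W.2⟩
  rw [iInf_of_empty]

/-- `C_D` has no point over any field `k` over `ℚ` for which `G_k → G_ℚ` splits. -/
def NoPoint (f : ℤ[X]) (D : ℤ) : Prop :=
  ∀ (k : Type v) (Ω : Type w) [Field k] [Field Ω] [Algebra k Ω] [IsAlgClosure k Ω] [Algebra ℚ k]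
    [Algebra ℚ Ω], Nonempty (FieldSplitting ℚ k Ω) → ¬ CurvePoint f D k

/-- Let `k` be a field over `ℚ`, let `F` be any field over `k` that contains a point `(x, y)` of the
curve `D y² = f(x)`, for instance the function field of `C_D` over `k` or of a curve over `k` that
dominates it, and let `Ω` be an algebraic closure of `F`.  If `G_k → G_ℚ` has a splitting, then for
every set `U` of valuation rings of `F` over `k` there is no section of `π₁(U) → G_k`. -/
def NoSection (f : ℤ[X]) (D : ℤ) : Prop :=
  ∀ (k : Type u) (F : Type v) (Ω : Type w) [Field k] [Field F] [Field Ω] [Algebra k F]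
    [Algebra F Ω] [Algebra k Ω] [IsScalarTower k F Ω] [IsAlgClosure F Ω] [Algebra ℚ k]
    [Algebra ℚ F] [Algebra ℚ Ω],
    Nonempty (FieldSplitting ℚ k Ω) → ∀ (x y : F) (U : Set (ValuationSubring F)),
    (D : F) * y ^ 2 = aeval x f → (∀ O ∈ U, ∀ c : k, algebraMap k F c ∈ O) →
      IsEmpty (GaloisSection k F Ω U)

/-- The number of the squarefree `D` with `|D| ≤ X` and the property `P`. -/
noncomputable def count (P : ℤ → Prop) (X : ℝ) : ℕ :=
  {D : ℤ | Squarefree D ∧ |(D : ℝ)| ≤ X ∧ P D}.ncard

lemma homogenisation_zero (f : ℤ[X]) {K : Type*} [Field K] (x : K) :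
    homogenisation f x 0 = (f.leadingCoeff : K) * x ^ f.natDegree := by
  unfold homogenisation
  rw [Finset.sum_eq_single f.natDegree]
  · rw [Nat.sub_self, pow_zero, mul_one]
    rfl
  · intro i hi hne
    have h1 : f.natDegree - i ≠ 0 := by
      rw [Finset.mem_range] at hi
      omega
    rw [zero_pow h1, mul_zero]
  · intro h
    exact absurd (Finset.mem_range.2 (Nat.lt_succ_self _)) h

lemma homogenisation_affine (f : ℤ[X]) {K : Type*} [Field K] (x w : K) (hw : w ≠ 0) :
    homogenisation f x w = w ^ f.natDegree * aeval (x / w) f := by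
  unfold homogenisation
  rw [aeval_eq_sum_range, Finset.mul_sum]
  refine Finset.sum_congr rfl fun i hi => ?_
  have h1 : i ≤ f.natDegree := Nat.lt_succ_iff.1 (Finset.mem_range.1 hi)
  have h2 : w ^ f.natDegree = w ^ (f.natDegree - i) * w ^ i := by
    rw [← pow_add, Nat.sub_add_cancel h1]
  rw [zsmul_eq_mul, h2, div_pow]
  have h3 : w ^ i ≠ 0 := pow_ne_zero i hw
  field_simp

/-- a point over `k` gives an exceptional twist -/
lemma bad_of_point {f : ℤ[X]} {D : ℤ} (hD : D ≠ 0) (hev : Even f.natDegree) {k : Type v}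
    {Ω : Type w} [Field k] [Field Ω] [Algebra k Ω] [IsAlgClosure k Ω] [Algebra ℚ k] [Algebra ℚ Ω]
    (t : FieldSplitting ℚ k Ω) (h : CurvePoint f D k) : Pool.Agent.Q161.SX.Bad.{v, w} f D := by
  have hch : CharZero k := algebraRat.charZero k
  have hcl : IsAlgClosed Ω := IsAlgClosure.isAlgClosed k
  have halg : Algebra.IsAlgebraic k Ω := IsAlgClosure.isAlgebraic
  have hst : IsScalarTower ℚ k Ω := inferInstance
  obtain ⟨s⟩ := trivialSection (k := k) (Ω := Ω)
  obtain ⟨G⟩ := compose s t
  obtain ⟨m, hm⟩ := hev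
  obtain ⟨x, w, y, hxw, hxy⟩ := h
  by_cases hw : w = 0
  · subst hw
    have hx : x ≠ 0 := hxw.resolve_right (fun h => h rfl)
    rw [homogenisation_zero, hm] at hxy
    have hDk : (D : k) ≠ 0 := Int.cast_ne_zero.2 hD
    have hr : ((D : k) * y / x ^ m) ^ 2 = ((D * f.leadingCoeff : ℤ) : k) := by
      rw [div_pow, mul_pow, ← pow_mul, mul_two, div_eq_iff (pow_ne_zero _ hx)]
      push_cast
      linear_combination (D : k) * hxy
    have hra : IsAlgebraic ℚ ((D : k) * y / x ^ m) := by
      apply IsAlgebraic.of_pow (n := 2) (by norm_num)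
      rw [hr]
      exact isAlgebraic_intCast _
    obtain ⟨c, hc⟩ := Pool.Agent.W623.SecE.alg_mem_base G _ hra
    refine Or.inl ⟨1, 0, c / D, Or.inl one_ne_zero, ?_⟩
    have h1 : c ^ 2 = ((D * f.leadingCoeff : ℤ) : ℚ) := by
      apply (algebraMap ℚ k).injective
      rw [map_pow, hc, hr, map_intCast]
    have h2 : Pool.Agent.Q51.EL.hom f (1 : ℚ) 0 = (f.leadingCoeff : ℚ) * 1 ^ f.natDegree :=
      homogenisation_zero f (1 : ℚ)
    have hDQ : (D : ℚ) ≠ 0 := Int.cast_ne_zero.2 hD
    rw [h2, one_pow, mul_one, div_pow, h1]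
    push_cast
    field_simp
  · refine Or.inr ⟨k, Ω, inferInstance, inferInstance, inferInstance, inferInstance,
      inferInstance, hst, hcl, halg, ∅, x / w, y / w ^ m, fun O hO => absurd hO (Set.notMem_empty O),
      ⟨G⟩, ?_⟩
    rw [homogenisation_affine f x w hw, hm] at hxy
    rw [div_pow, ← pow_mul, mul_two, mul_div_assoc', hxy, mul_div_cancel_left₀ _ (pow_ne_zero _ hw)]

/-- `f ∈ ℤ[x]` irreducible over `ℚ` of even degree `≥ 6`.  For all but a proportion
`O((log X)^(-δ))` of the everywhere locally soluble twists `C_D`, `D` squarefree, `|D| ≤ X`: over all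
fields `k` over `ℚ` for which `G_k → G_ℚ` has a splitting there is no point and no section. -/
theorem result (f : ℤ[X]) (hf : Irreducible (f.map (Int.castRingHom ℚ))) (hev : Even f.natDegree)
    (hn : 6 ≤ f.natDegree) :
    ∃ δ C X₀ : ℝ, 0 < δ ∧ ∀ X : ℝ, X₀ ≤ X →
      (count (fun D => ¬ (NoPoint.{v, w} f D ∧ NoSection.{u, v, w} f D)) X : ℝ) ≤
        C * Real.log X ^ (-δ) * (count (LocallySoluble f) X : ℝ) := by
  classical
  obtain ⟨δ, C, X1, hδ, h1⟩ := Pool.Agent.Q161.SX.bad_count Pool.Agent.Q161.SH.secx.{v, w}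
    Pool.Agent.Q16.SX.tra Pool.Agent.Q161.SX.t_fin Pool.Agent.Q51.EL.main f hf hev hn
  have hcount : ∀ (P : ℤ → Prop) (X : ℝ),
      {D : ℤ | (D.natAbs : ℝ) ≤ X ∧ Squarefree D ∧ P D}.ncard = count P X := by
    intro P X
    unfold count
    congr 1
    ext D
    simp only [Set.mem_ofPred_eq, Nat.cast_natAbs, Int.cast_abs]
    tauto
  refine ⟨δ, C, X1, hδ, fun X hX => ?_⟩
  have h3 := h1 X hX
  rw [hcount (Pool.Agent.Q51.EL.ELS f)] at h3
  refine le_trans ?_ h3
  rw [← hcount]
  have hsub : {D : ℤ | (D.natAbs : ℝ) ≤ X ∧ Squarefree D ∧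
      ¬ (NoPoint.{v, w} f D ∧ NoSection.{u, v, w} f D)} ⊆
      {D : ℤ | (D.natAbs : ℝ) ≤ X ∧ Squarefree D ∧ Pool.Agent.Q161.SX.Bad.{v, w} f D} := by
    rintro D ⟨h4, h5, h6⟩
    refine ⟨h4, h5, ?_⟩
    rcases not_and_or.1 h6 with h6 | h6
    · unfold NoPoint at h6
      push Not at h6
      obtain ⟨k, Ω, i1, i2, i3, i4, i5, i6, ⟨t⟩, h7⟩ := h6
      exact bad_of_point h5.ne_zero hev t h7
    · refine Or.inr ?_
      unfold NoSection at h6
      push Not at h6
      obtain ⟨k, F, Ω, i1, i2, i3, i4, i5, i6, i7, i8, i9, i10, i11, ⟨t⟩, x, y, U, hxy, hU, hG⟩ :=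
        h6
      obtain ⟨s⟩ := hG
      have hQ : ∀ O ∈ U, ∀ c : ℚ, algebraMap ℚ F c ∈ O := by
        intro O hO c
        have h7 := hU O hO (algebraMap ℚ k c)
        rwa [← IsScalarTower.algebraMap_apply ℚ k F] at h7
      exact ⟨F, Ω, i2, i3, i10, i5, i11, inferInstance, IsAlgClosure.isAlgClosed F,
        IsAlgClosure.isAlgebraic, U, x, y, hQ, compose s t, hxy⟩
  exact_mod_cast Set.ncard_le_ncard hsub (Pool.Agent.Q161.SX.natAbs_finite X _)

end Pool.Agent.Results.MP_e66f84_ag.TwistsOverSplitFields
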